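import Mathlib.SetTheory.Cardinal.Regular
import Pool.Agent.Helper32.FR.Defs

/-!
# FR-A3: the index set
-/

set_option autoImplicit false

namespace Pool.Agent.Helper32.FR

open Cardinal Ordinal

/-- FR-A3: existence of the index set. -/
theorem exists_omOne : ∃ (Ω : Type) (_ : LinearOrder Ω), OmOne Ω := by
  refine ⟨(Cardinal.aleph 1).ord.ToType, inferInstance, ?_, ?_⟩
  · intro x
    have h1 : Cardinal.mk (Set.Iio x) < Order.succ Cardinal.aleph0 :=
      (Cardinal.mk_Iio_toType_ord_lt x).trans_eq Cardinal.succ_aleph0.symm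
    have h2 : (Set.Iio x).Countable := by
      rw [← Cardinal.le_aleph0_iff_set_countable]
      exact Order.lt_succ_iff.1 h1
    have h3 : Set.Iic x = insert x (Set.Iio x) := by
      ext y
      simp [le_iff_eq_or_lt]
    rw [h3]
    exact h2.insert x
  · intro S hS
    by_contra hcon
    push Not at hcon
    have h1 : IsCofinal S := fun y => hcon y
    have h2 := Order.cof_le h1
    rw [Ordinal.cof_toType, Cardinal.isRegular_aleph_one.cof_ord] at h2
    have h3 : Cardinal.mk S ≤ Cardinal.aleph0 := Cardinal.le_aleph0_iff_set_countable.2 hS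
    exact absurd (h2.trans h3) (not_le.2 Cardinal.aleph0_lt_aleph_one)

end Pool.Agent.Helper32.FR
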