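import Mathlib

/-!
# The map `(x, y) ↦ (⌊(x + y) / 2⌋, y - x)`: complex coordinates and the parity digits
-/

set_option autoImplicit false

namespace Pool.Agent.Helper40.FR

open Finset

/-- The map. -/
def T (p : ℤ × ℤ) : ℤ × ℤ := ((p.1 + p.2) / 2, p.2 - p.1)

/-- The number `(-1 + √-7) / 2`. -/
noncomputable def τ : ℂ := ⟨-1 / 2, Real.sqrt 7 / 2⟩

/-- The rotation number `(3 + √-7) / 4`. -/
noncomputable def μ : ℂ := ⟨3 / 4, Real.sqrt 7 / 4⟩

/-- The complex coordinate. -/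
noncomputable def z (p : ℤ × ℤ) : ℂ := ((p.2 : ℂ) - 1 / 2) + τ * (p.1 : ℂ)

/-- The sign given by the parity. -/
noncomputable def η (p : ℤ × ℤ) : ℝ := if (p.1 + p.2) % 2 = 0 then 1 else -1

theorem sqrt7 : Real.sqrt 7 * Real.sqrt 7 = 7 := Real.mul_self_sqrt (by norm_num)

theorem tau_sq : τ ^ 2 = -τ - 2 := by
  apply Complex.ext
  · simp only [pow_two, Complex.mul_re, Complex.sub_re, Complex.neg_re, τ, Complex.re_ofNat]
    nlinarith [sqrt7]
  · simp only [pow_two, Complex.mul_im, Complex.sub_im, Complex.neg_im, τ, Complex.im_ofNat]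
    ring

theorem mu_eq : μ = 1 + τ / 2 := by
  apply Complex.ext
  · simp [μ, τ]; norm_num
  · simp [μ, τ]; ring

theorem normSq_tau : Complex.normSq τ = 2 := by
  rw [Complex.normSq_apply]
  simp only [τ]
  nlinarith [sqrt7]

theorem normSq_mu : Complex.normSq μ = 1 := by
  rw [Complex.normSq_apply]
  simp only [μ]
  nlinarith [sqrt7]

theorem norm_mu : ‖μ‖ = 1 := by
  have h := normSq_mu
  rw [Complex.normSq_eq_norm_sq] at h
  have h0 := norm_nonneg μ
  nlinarith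

theorem norm_tau_sq : ‖τ‖ ^ 2 = 2 := by
  rw [← Complex.normSq_eq_norm_sq, normSq_tau]

theorem norm_tau_le : ‖τ‖ ≤ 3 / 2 := by
  have h := norm_tau_sq
  have h0 := norm_nonneg τ
  nlinarith

theorem mu_mul_conj : μ * (starRingEnd ℂ) μ = 1 := by
  rw [Complex.mul_conj, normSq_mu]
  simp

theorem z_T (p : ℤ × ℤ) : z (T p) = μ * z p + (η p : ℂ) * (τ / 4) := by
  obtain ⟨x, y⟩ := p
  have hm : (x + y) = 2 * ((x + y) / 2) + (x + y) % 2 := by omega
  set m := (x + y) / 2 with hmdef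
  rcases Int.emod_two_eq_zero_or_one (x + y) with h | h
  · have hy : y = 2 * m - x := by omega
    have hη : η (x, y) = 1 := by simp [η, h]
    rw [hη]
    simp only [z, T, ← hmdef]
    have hyc : (y : ℂ) = 2 * m - x := by exact_mod_cast congrArg (Int.cast : ℤ → ℂ) hy
    push_cast
    rw [mu_eq, hyc]
    linear_combination (-(x : ℂ) / 2) * tau_sq
  · have hy : y = 2 * m + 1 - x := by omega
    have hη : η (x, y) = -1 := by simp [η, h]
    rw [hη]
    simp only [z, T, ← hmdef]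
    have hyc : (y : ℂ) = 2 * m + 1 - x := by exact_mod_cast congrArg (Int.cast : ℤ → ℂ) hy
    push_cast
    rw [mu_eq, hyc]
    linear_combination (-(x : ℂ) / 2) * tau_sq

theorem abs_η (p : ℤ × ℤ) : |η p| = 1 := by
  unfold η
  split_ifs <;> simp

theorem norm_η (p : ℤ × ℤ) : ‖(η p : ℂ)‖ = 1 := by
  rw [Complex.norm_real, Real.norm_eq_abs, abs_η]

/-- The sum of the kicks. -/
noncomputable def kick (k : ℕ) (p : ℤ × ℤ) : ℂ :=
  (τ / 4) * ∑ j ∈ range k, (η (T^[j] p) : ℂ) * μ ^ (k - 1 - j)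

theorem z_iter (k : ℕ) (p : ℤ × ℤ) : z (T^[k] p) = μ ^ k * z p + kick k p := by
  induction k with
  | zero => simp [kick]
  | succ k ih =>
    rw [Function.iterate_succ_apply', z_T, ih]
    unfold kick
    rw [Finset.sum_range_succ]
    have h : ∑ j ∈ range k, (η (T^[j] p) : ℂ) * μ ^ (k + 1 - 1 - j) =
        μ * ∑ j ∈ range k, (η (T^[j] p) : ℂ) * μ ^ (k - 1 - j) := by
      rw [Finset.mul_sum]
      refine Finset.sum_congr rfl fun j hj => ?_
      have hj' := Finset.mem_range.1 hj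
      have : k + 1 - 1 - j = (k - 1 - j) + 1 := by omega
      rw [this, pow_succ]
      ring
    rw [h]
    have h2 : k + 1 - 1 - k = 0 := by omega
    rw [h2]
    ring

theorem norm_kick (k : ℕ) (p : ℤ × ℤ) : ‖kick k p‖ ≤ ‖τ‖ / 4 * k := by
  unfold kick
  rw [norm_mul, norm_div]
  have h4 : ‖(4 : ℂ)‖ = 4 := by simp
  rw [h4]
  refine mul_le_mul_of_nonneg_left ?_ (by positivity)
  refine (norm_sum_le _ _).trans ?_
  have : ∀ j ∈ range k, ‖(η (T^[j] p) : ℂ) * μ ^ (k - 1 - j)‖ ≤ 1 := by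
    intro j _
    rw [norm_mul, norm_η, norm_pow, norm_mu]
    simp
  refine (Finset.sum_le_sum this).trans ?_
  simp

/-- The linear functional of the `j`-th kick. -/
noncomputable def c (j : ℕ) (ζ : ℂ) : ℝ := (ζ * (starRingEnd ℂ) τ * μ ^ (j + 1)).re

theorem c_add (j : ℕ) (a b : ℂ) : c j (a + b) = c j a + c j b := by
  unfold c
  rw [add_mul, add_mul, Complex.add_re]

theorem abs_c (j : ℕ) (ζ : ℂ) : |c j ζ| ≤ 3 / 2 * ‖ζ‖ := by
  unfold c
  refine (Complex.abs_re_le_norm _).trans ?_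
  rw [norm_mul, norm_mul, norm_pow, norm_mu, one_pow, mul_one, RCLike.norm_conj]
  have := norm_tau_le
  have h0 := norm_nonneg ζ
  nlinarith

theorem drift (k : ℕ) (p : ℤ × ℤ) : ‖z (T^[k] p)‖ ^ 2 - ‖z p‖ ^ 2 =
    1 / 2 * (∑ j ∈ range k, η (T^[j] p) * c j (z p)) + ‖kick k p‖ ^ 2 := by
  rw [z_iter, ← Complex.normSq_eq_norm_sq, ← Complex.normSq_eq_norm_sq,
    ← Complex.normSq_eq_norm_sq, Complex.normSq_add, map_mul, map_pow, normSq_mu, one_pow, one_mul]
  have h : (μ ^ k * z p * (starRingEnd ℂ) (kick k p)).re =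
      1 / 4 * ∑ j ∈ range k, η (T^[j] p) * c j (z p) := by
    have h1 : μ ^ k * z p * (starRingEnd ℂ) (kick k p) =
        ((1 / 4 : ℝ) : ℂ) * ∑ j ∈ range k, ((η (T^[j] p) : ℝ) : ℂ) *
          (z p * (starRingEnd ℂ) τ * μ ^ (j + 1)) := by
      unfold kick
      rw [map_mul, map_sum, map_div₀, Finset.mul_sum, Finset.mul_sum, Finset.mul_sum]
      refine Finset.sum_congr rfl fun j hj => ?_
      have hj' := Finset.mem_range.1 hj
      rw [map_mul, map_pow, Complex.conj_ofReal]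
      have hk : k = (j + 1) + (k - 1 - j) := by omega
      have h2 : μ ^ k * (starRingEnd ℂ) μ ^ (k - 1 - j) = μ ^ (j + 1) := by
        conv_lhs => rw [hk]
        rw [pow_add]
        have : j + 1 + (k - 1 - j) - 1 - j = k - 1 - j := by omega
        rw [this, mul_assoc, ← mul_pow, mu_mul_conj, one_pow, mul_one]
      have h3 : (starRingEnd ℂ) (4 : ℂ) = 4 := Complex.conj_ofNat 4
      rw [h3, ← h2]
      push_cast
      ring
    rw [h1, Complex.re_ofReal_mul, Complex.re_sum]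
    congr 1
    refine Finset.sum_congr rfl fun j _ => ?_
    rw [Complex.re_ofReal_mul]
    rfl
  rw [h]
  ring

/-- Adding `2 ^ j` to the second coordinate. -/
theorem iter_add (j : ℕ) : ∀ i : ℕ, i ≤ j → ∃ a b : ℤ, (a + b) % 2 = 1 ∧ ∀ x y : ℤ,
    T^[i] (x, y + 2 ^ j) = ((T^[i] (x, y)).1 + 2 ^ (j - i) * a, (T^[i] (x, y)).2 + 2 ^ (j - i) * b) := by
  intro i
  induction i with
  | zero =>
    intro _
    exact ⟨0, 1, by norm_num, fun x y => by simp⟩
  | succ i ih =>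
    intro hi
    obtain ⟨a, b, hab, h⟩ := ih (by omega)
    refine ⟨a + b, 2 * (b - a), by omega, fun x y => ?_⟩
    rw [Function.iterate_succ_apply', Function.iterate_succ_apply', h x y]
    have hp : (2 : ℤ) ^ (j - i) = 2 * 2 ^ (j - (i + 1)) := by
      rw [← pow_succ']
      congr 1
      omega
    simp only [T]
    refine Prod.ext ?_ ?_
    · simp only
      rw [hp]
      have : (T^[i] (x, y)).1 + 2 * 2 ^ (j - (i + 1)) * a +
          ((T^[i] (x, y)).2 + 2 * 2 ^ (j - (i + 1)) * b) =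
          ((T^[i] (x, y)).1 + (T^[i] (x, y)).2) + 2 * (2 ^ (j - (i + 1)) * (a + b)) := by ring
      rw [this, Int.add_mul_ediv_left _ _ (by norm_num : (2 : ℤ) ≠ 0)]
    · simp only
      rw [hp]
      ring

theorem η_lt {i j : ℕ} (hij : i < j) (x y : ℤ) :
    η (T^[i] (x, y + 2 ^ j)) = η (T^[i] (x, y)) := by
  obtain ⟨a, b, -, h⟩ := iter_add j i hij.le
  rw [h x y]
  unfold η
  simp only
  have hp : (2 : ℤ) ^ (j - i) = 2 * 2 ^ (j - i - 1) := by
    rw [← pow_succ']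
    congr 1
    omega
  have : (T^[i] (x, y)).1 + 2 ^ (j - i) * a + ((T^[i] (x, y)).2 + 2 ^ (j - i) * b) =
      ((T^[i] (x, y)).1 + (T^[i] (x, y)).2) + 2 * (2 ^ (j - i - 1) * (a + b)) := by
    rw [hp]; ring
  rw [this, Int.add_mul_emod_self_left]

theorem η_eq (j : ℕ) (x y : ℤ) :
    η (T^[j] (x, y + 2 ^ j)) = - η (T^[j] (x, y)) := by
  obtain ⟨a, b, hab, h⟩ := iter_add j j le_rfl
  rw [h x y]
  unfold η
  simp only [Nat.sub_self, pow_zero, one_mul]
  have h2 : ((T^[j] (x, y)).1 + a + ((T^[j] (x, y)).2 + b)) % 2 = 0 ↔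
      ¬ ((T^[j] (x, y)).1 + (T^[j] (x, y)).2) % 2 = 0 := by omega
  by_cases h3 : ((T^[j] (x, y)).1 + (T^[j] (x, y)).2) % 2 = 0
  · rw [if_neg (by rw [h2]; exact fun h => h h3), if_pos h3]
  · rw [if_pos (h2.2 h3), if_neg h3]
    norm_num

end Pool.Agent.Helper40.FR
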