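import Pool.Agent.Helper40.FR.Sum

/-!
# Finite sets with small exit set
-/

set_option autoImplicit false

namespace Pool.Agent.Helper40.FR

open Finset

/-- The smoothed quadratic form. -/
noncomputable def ψ (k : ℕ) (p : ℤ × ℤ) : ℝ := (∑ i ∈ range k, ‖z (T^[i] p)‖ ^ 2) / k

theorem psi_T (k : ℕ) (p : ℤ × ℤ) :
    ψ k (T p) - ψ k p = (‖z (T^[k] p)‖ ^ 2 - ‖z p‖ ^ 2) / k := by
  unfold ψ
  rw [← sub_div]
  congr 1
  have e1 := Finset.sum_range_succ (fun i => ‖z (T^[i] p)‖ ^ 2) k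
  have e2 := Finset.sum_range_succ' (fun i => ‖z (T^[i] p)‖ ^ 2) k
  simp only [Function.iterate_succ_apply, Function.iterate_zero, id_eq] at e2
  rw [e1] at e2
  linarith

theorem count_between (S : ℕ) (a b : ℝ) :
    (((Finset.Ico S (2 * S)).filter fun t : ℕ => a ≤ t ∧ (t : ℝ) < b).card : ℝ) ≤
      |b - a| + 1 := by
  by_cases hne : ((Finset.Ico S (2 * S)).filter fun t : ℕ => a ≤ t ∧ (t : ℝ) < b).Nonempty
  · obtain ⟨t, ht⟩ := hne
    have ht' := (Finset.mem_filter.1 ht).2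
    have hb : 0 ≤ b := (Nat.cast_nonneg t).trans ht'.2.le
    have hsub : ((Finset.Ico S (2 * S)).filter fun t : ℕ => a ≤ t ∧ (t : ℝ) < b) ⊆
        Finset.Ico ⌈a⌉₊ ⌈b⌉₊ := by
      intro s hs
      have hs' := (Finset.mem_filter.1 hs).2
      rw [Finset.mem_Ico]
      exact ⟨Nat.ceil_le.2 hs'.1, Nat.lt_ceil.2 hs'.2⟩
    have hcard := Finset.card_le_card hsub
    rw [Nat.card_Ico] at hcard
    have hab : ⌈a⌉₊ ≤ ⌈b⌉₊ := Nat.ceil_mono (ht'.1.trans ht'.2.le)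
    have h1 : (((Finset.Ico S (2 * S)).filter fun t : ℕ => a ≤ t ∧ (t : ℝ) < b).card : ℝ) ≤
        (⌈b⌉₊ : ℝ) - ⌈a⌉₊ := by
      rw [← Nat.cast_sub hab]
      exact_mod_cast hcard
    have h2 := Nat.ceil_lt_add_one hb
    have h3 := Nat.le_ceil a
    have h4 := le_abs_self (b - a)
    linarith
  · rw [Finset.not_nonempty_iff_eq_empty] at hne
    rw [hne]
    simp only [Finset.card_empty, Nat.cast_zero]
    positivity

theorem norm_iter_le (i : ℕ) (p : ℤ × ℤ) : ‖z (T^[i] p)‖ ≤ ‖z p‖ + 3 / 8 * i := by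
  rw [z_iter]
  refine (norm_add_le _ _).trans ?_
  rw [norm_mul, norm_pow, norm_mu, one_pow, one_mul]
  have h1 := norm_kick i p
  have h2 := norm_tau_le
  have h3 : (0 : ℝ) ≤ i := Nat.cast_nonneg i
  nlinarith

theorem norm_le_iter (i : ℕ) (p : ℤ × ℤ) : ‖z p‖ ≤ ‖z (T^[i] p)‖ + 3 / 8 * i := by
  have h : μ ^ i * z p = z (T^[i] p) - kick i p := by rw [z_iter]; ring
  have h0 : ‖z p‖ = ‖μ ^ i * z p‖ := by
    rw [norm_mul, norm_pow, norm_mu, one_pow, one_mul]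
  rw [h0, h]
  refine (norm_sub_le _ _).trans ?_
  have h1 := norm_kick i p
  have h2 := norm_tau_le
  have h3 : (0 : ℝ) ≤ i := Nat.cast_nonneg i
  nlinarith

theorem coord_le (x y : ℤ) (B : ℝ) (hB : ‖z (x, y)‖ ≤ B) :
    |(x : ℝ)| ≤ 10 / 13 * B ∧ |(y : ℝ)| ≤ 18 / 13 * B + 1 / 2 := by
  have hre : (z (x, y)).re = (y : ℝ) - 1 / 2 - (x : ℝ) / 2 := by
    simp [z, τ]
    ring
  have him : (z (x, y)).im = Real.sqrt 7 / 2 * x := by
    simp [z, τ]
  have h1 := (Complex.abs_re_le_norm (z (x, y))).trans hB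
  have h2 := (Complex.abs_im_le_norm (z (x, y))).trans hB
  rw [hre] at h1
  rw [him, abs_mul, abs_of_nonneg (by positivity)] at h2
  have h7 : (13 / 10 : ℝ) ≤ Real.sqrt 7 / 2 := by
    have : (26 / 10 : ℝ) ≤ Real.sqrt 7 := by
      apply Real.le_sqrt_of_sq_le
      norm_num
    linarith
  have h3 : 13 / 10 * |(x : ℝ)| ≤ Real.sqrt 7 / 2 * |(x : ℝ)| :=
    mul_le_mul_of_nonneg_right h7 (abs_nonneg _)
  have hx : |(x : ℝ)| ≤ 10 / 13 * B := by linarith
  refine ⟨hx, ?_⟩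
  have hx' := abs_le.1 hx
  rw [abs_le] at h1 ⊢
  constructor <;> linarith [h1.1, h1.2, hx'.1, hx'.2]

theorem psi_le (N k : ℕ) (hk : 1 ≤ k) (hkN : k ≤ N) (p : ℤ × ℤ) (h1 : |p.1| ≤ N)
    (h2 : |p.2| ≤ N) : ψ k p ≤ 16 * (N : ℝ) ^ 2 := by
  obtain ⟨x, y⟩ := p
  have hN : (1 : ℝ) ≤ N := by exact_mod_cast hk.trans hkN
  have hkN' : (k : ℝ) ≤ N := by exact_mod_cast hkN
  have hk0 : (0 : ℝ) < k := by exact_mod_cast hk
  simp only at h1 h2
  have h1' : |(x : ℝ)| ≤ N := by exact_mod_cast h1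
  have h2' : |(y : ℝ)| ≤ N := by exact_mod_cast h2
  have hz : ‖z (x, y)‖ ≤ 3 * N := by
    refine (norm_z_le x y).trans ?_
    have : |(y : ℝ) - 1 / 2| ≤ |(y : ℝ)| + 1 / 2 := by
      refine (abs_sub _ _).trans ?_
      rw [abs_of_nonneg (by norm_num : (0 : ℝ) ≤ 1 / 2)]
    linarith
  unfold ψ
  rw [div_le_iff₀ hk0]
  have key : ∀ i ∈ range k, ‖z (T^[i] (x, y))‖ ^ 2 ≤ 16 * (N : ℝ) ^ 2 := by
    intro i hi
    have hi' : (i : ℝ) ≤ k := by exact_mod_cast (Finset.mem_range.1 hi).le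
    have h3 := norm_iter_le i (x, y)
    have h4 : ‖z (T^[i] (x, y))‖ ≤ 4 * N := by linarith
    calc ‖z (T^[i] (x, y))‖ ^ 2 ≤ (4 * (N : ℝ)) ^ 2 := pow_le_pow_left₀ (norm_nonneg _) h4 2
      _ = 16 * (N : ℝ) ^ 2 := by ring
  refine (Finset.sum_le_sum key).trans ?_
  rw [Finset.sum_const, Finset.card_range, nsmul_eq_mul]
  apply le_of_eq
  ring

theorem mem_box_of_psi (N k : ℕ) (hk : 1 ≤ k) (hkN : k ≤ N) (p : ℤ × ℤ)
    (h : ψ k p ≤ 32 * (N : ℝ) ^ 2) : p ∈ box (10 * N) := by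
  obtain ⟨x, y⟩ := p
  have hN : (1 : ℝ) ≤ N := by exact_mod_cast hk.trans hkN
  have hkN' : (k : ℝ) ≤ N := by exact_mod_cast hkN
  have hk0 : (0 : ℝ) < k := by exact_mod_cast hk
  unfold ψ at h
  rw [div_le_iff₀ hk0] at h
  have hne : (range k).Nonempty := ⟨0, Finset.mem_range.2 hk⟩
  obtain ⟨i, hi, hle⟩ := Finset.exists_le_of_sum_le (f := fun i => ‖z (T^[i] (x, y))‖ ^ 2)
    (g := fun _ => 32 * (N : ℝ) ^ 2) hne (by
      rw [Finset.sum_const, Finset.card_range, nsmul_eq_mul]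
      linarith)
  have h5 : ‖z (T^[i] (x, y))‖ ≤ 57 / 10 * N := by
    refine le_of_sq_le_sq ?_ (by positivity)
    have : (0 : ℝ) ≤ (N : ℝ) ^ 2 := by positivity
    rw [mul_pow]
    nlinarith
  have hi' : (i : ℝ) ≤ k := by exact_mod_cast (Finset.mem_range.1 hi).le
  have h6 : ‖z (x, y)‖ ≤ 61 / 10 * N := by
    have := norm_le_iter i (x, y)
    linarith
  obtain ⟨hx, hy⟩ := coord_le x y _ h6
  rw [mem_box]
  have hx' := abs_le.1 hx
  have hy' := abs_le.1 hy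
  simp only
  push_cast
  refine ⟨⟨?_, ?_⟩, ?_, ?_⟩
  · have : (-(10 * (N : ℝ))) ≤ x := by linarith
    exact_mod_cast this
  · have : (x : ℝ) < 10 * (N : ℝ) := by linarith
    exact_mod_cast this
  · have : (-(10 * (N : ℝ))) ≤ y := by linarith
    exact_mod_cast this
  · have : (y : ℝ) < 10 * (N : ℝ) := by linarith
    exact_mod_cast this

/-- A finite set with a small exit set. -/
theorem exists_D_aux (N k : ℕ) (hk : 1 ≤ k) (hkN : k ≤ N) (h4 : 4 ^ k ≤ 4 * N) :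
    ∃ D : Finset (ℤ × ℤ), (∀ p : ℤ × ℤ, |p.1| ≤ N → |p.2| ≤ N → p ∈ D) ∧
      (∀ p ∈ D, p ∈ box (10 * N)) ∧
      ((D.filter fun p => T p ∉ D).card : ℝ) ≤ 788 * N / Real.sqrt k := by
  classical
  have hN1 : 1 ≤ N := hk.trans hkN
  have hN : (1 : ℝ) ≤ N := by exact_mod_cast hN1
  have hkN' : (k : ℝ) ≤ N := by exact_mod_cast hkN
  have hk0 : (0 : ℝ) < k := by exact_mod_cast hk
  have hk1 : (1 : ℝ) ≤ k := by exact_mod_cast hk
  have hk2 : k ≤ 2 ^ k := Nat.lt_two_pow_self.le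
  have h22 : 2 ^ k * 2 ^ k = 4 ^ k := by rw [← mul_pow]; norm_num
  have hM : k * 2 ^ k ≤ 10 * N := by
    have : k * 2 ^ k ≤ 2 ^ k * 2 ^ k := Nat.mul_le_mul_right _ hk2
    omega
  have hkk : k * k ≤ 4 * N := by
    have : k * k ≤ 2 ^ k * 2 ^ k := Nat.mul_le_mul hk2 hk2
    omega
  have hkk' : (k : ℝ) * k ≤ 4 * N := by exact_mod_cast hkk
  set s := Real.sqrt k with hs
  have hs2 : s * s = k := Real.mul_self_sqrt (Nat.cast_nonneg k)
  have hs1 : 1 ≤ s := by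
    rw [hs, Real.one_le_sqrt]; exact hk1
  have hs0 : 0 < s := by linarith
  set S := 16 * N ^ 2 with hS
  have hS0 : 0 < S := by positivity
  -- the average over the thresholds
  have havg : ∑ t ∈ Finset.Ico S (2 * S),
      (((box (10 * N)).filter fun p => ψ k p ≤ t ∧ (t : ℝ) < ψ k (T p)).card : ℝ) ≤
      ∑ t ∈ Finset.Ico S (2 * S), (788 * N / s : ℝ) := by
    have e1 : ∑ t ∈ Finset.Ico S (2 * S),
        (((box (10 * N)).filter fun p => ψ k p ≤ t ∧ (t : ℝ) < ψ k (T p)).card : ℝ) =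
        ∑ p ∈ box (10 * N),
          (((Finset.Ico S (2 * S)).filter fun t : ℕ => ψ k p ≤ t ∧ (t : ℝ) < ψ k (T p)).card : ℝ) := by
      simp only [Finset.card_filter]
      push_cast
      rw [Finset.sum_comm]
    rw [e1]
    have e2 : ∀ p ∈ box (10 * N),
        (((Finset.Ico S (2 * S)).filter fun t : ℕ => ψ k p ≤ t ∧ (t : ℝ) < ψ k (T p)).card : ℝ) ≤
        |‖z (T^[k] p)‖ ^ 2 - ‖z p‖ ^ 2| / k + 1 := by
      intro p _
      refine (count_between S _ _).trans ?_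
      rw [psi_T, abs_div, abs_of_nonneg (Nat.cast_nonneg k : (0 : ℝ) ≤ k)]
    refine (Finset.sum_le_sum e2).trans ?_
    rw [Finset.sum_add_distrib, ← Finset.sum_div, Finset.sum_const, card_box, Finset.sum_const,
      Nat.card_Ico, nsmul_eq_mul, nsmul_eq_mul]
    have h5 := drift_sum (10 * N) k hk hM
    rw [← hs] at h5
    have h6 : (∑ p ∈ box (10 * N), |‖z (T^[k] p)‖ ^ 2 - ‖z p‖ ^ 2|) / k ≤
        (12 * s * ((10 * N : ℕ) : ℝ) ^ 3 + (k : ℝ) ^ 2 * ((10 * N : ℕ) : ℝ) ^ 2 / 2) / k :=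
      div_le_div_of_nonneg_right h5 hk0.le
    have h7 : (12 * s * ((10 * N : ℕ) : ℝ) ^ 3 + (k : ℝ) ^ 2 * ((10 * N : ℕ) : ℝ) ^ 2 / 2) / k =
        12000 * (N : ℝ) ^ 3 / s + 50 * k * (N : ℝ) ^ 2 := by
      push_cast
      rw [← hs2]
      field_simp
      ring
    have h8 : ((2 * S - S : ℕ) : ℝ) = 16 * (N : ℝ) ^ 2 := by
      have : 2 * S - S = S := by omega
      rw [this, hS]
      push_cast
      ring
    rw [h8]
    rw [h7] at h6
    have h9 : (50 * k * (N : ℝ) ^ 2 : ℝ) ≤ 200 * (N : ℝ) ^ 3 / s := by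
      rw [le_div_iff₀ hs0]
      have : (k : ℝ) * s ≤ 4 * N := by
        have : s ≤ k := by nlinarith
        nlinarith
      have h10 : (0 : ℝ) ≤ (N : ℝ) ^ 2 := by positivity
      calc 50 * (k : ℝ) * (N : ℝ) ^ 2 * s = 50 * (N : ℝ) ^ 2 * (k * s) := by ring
        _ ≤ 50 * (N : ℝ) ^ 2 * (4 * N) := mul_le_mul_of_nonneg_left this (by positivity)
        _ = 200 * (N : ℝ) ^ 3 := by ring
    have h11 : ((4 * (10 * N) ^ 2 : ℕ) : ℝ) * 1 ≤ 400 * (N : ℝ) ^ 3 / s := by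
      rw [le_div_iff₀ hs0]
      push_cast
      have : s ≤ N := by
        have : s ≤ k := by nlinarith
        linarith
      have h10 : (0 : ℝ) ≤ (N : ℝ) ^ 2 := by positivity
      calc 4 * (10 * (N : ℝ)) ^ 2 * 1 * s = 400 * (N : ℝ) ^ 2 * s := by ring
        _ ≤ 400 * (N : ℝ) ^ 2 * N := mul_le_mul_of_nonneg_left this (by positivity)
        _ = 400 * (N : ℝ) ^ 3 := by ring
    have h12 : 16 * (N : ℝ) ^ 2 * (788 * N / s) = 12608 * (N : ℝ) ^ 3 / s := by ring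
    rw [h12]
    have h13 : 12000 * (N : ℝ) ^ 3 / s + 200 * (N : ℝ) ^ 3 / s + 400 * (N : ℝ) ^ 3 / s ≤
        12608 * (N : ℝ) ^ 3 / s := by
      rw [← add_div, ← add_div]
      refine div_le_div_of_nonneg_right ?_ hs0.le
      have : (0 : ℝ) ≤ (N : ℝ) ^ 3 := by positivity
      linarith
    linarith
  obtain ⟨t, ht, hle⟩ := Finset.exists_le_of_sum_le
    (Finset.nonempty_Ico.2 (by omega : S < 2 * S)) havg
  rw [Finset.mem_Ico] at ht
  refine ⟨(box (10 * N)).filter fun p => ψ k p ≤ t, ?_, ?_, ?_⟩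
  · intro p h1 h2
    have h3 := psi_le N k hk hkN p h1 h2
    have hSt : (16 * (N : ℝ) ^ 2) ≤ t := by
      have : ((S : ℕ) : ℝ) ≤ t := by exact_mod_cast ht.1
      rw [hS] at this
      push_cast at this
      exact this
    rw [Finset.mem_filter]
    refine ⟨mem_box_of_psi N k hk hkN p ?_, h3.trans hSt⟩
    have : (0 : ℝ) ≤ (N : ℝ) ^ 2 := by positivity
    linarith
  · intro p hp
    exact (Finset.mem_filter.1 hp).1
  · refine le_trans ?_ hle
    have hsub : (((box (10 * N)).filter fun p => ψ k p ≤ t).filter fun p =>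
        T p ∉ (box (10 * N)).filter fun p => ψ k p ≤ t) ⊆
        (box (10 * N)).filter fun p => ψ k p ≤ t ∧ (t : ℝ) < ψ k (T p) := by
      intro p hp
      rw [Finset.mem_filter, Finset.mem_filter] at hp
      obtain ⟨⟨hp1, hp2⟩, hp3⟩ := hp
      rw [Finset.mem_filter]
      refine ⟨hp1, hp2, ?_⟩
      by_contra hcon
      rw [not_lt] at hcon
      apply hp3
      rw [Finset.mem_filter]
      refine ⟨mem_box_of_psi N k hk hkN _ (hcon.trans ?_), hcon⟩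
      have : ((t : ℕ) : ℝ) ≤ ((2 * S : ℕ) : ℝ) := by exact_mod_cast ht.2.le
      rw [hS] at this
      push_cast at this
      linarith
    exact_mod_cast Finset.card_le_card hsub

/-- A finite set with a small exit set. -/
theorem exists_D (N : ℕ) (hN : 2 ≤ N) :
    ∃ D : Finset (ℤ × ℤ), (∀ p : ℤ × ℤ, |p.1| ≤ N → |p.2| ≤ N → p ∈ D) ∧
      (∀ p ∈ D, |p.1| ≤ 10 * N ∧ |p.2| ≤ 10 * N) ∧
      ((D.filter fun p => T p ∉ D).card : ℝ) ≤ 1000 * N / Real.sqrt (Real.log N) := by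
  have hN0 : N ≠ 0 := by omega
  set k := Nat.log 4 N + 1 with hk
  have h1 : 4 ^ Nat.log 4 N ≤ N := Nat.pow_log_le_self 4 hN0
  have h2 : N < 4 ^ k := Nat.lt_pow_succ_log_self (by norm_num) N
  have h4 : 4 ^ k ≤ 4 * N := by rw [hk, pow_succ]; omega
  have hkN : k ≤ N := by
    have : Nat.log 4 N < 4 ^ Nat.log 4 N := Nat.lt_pow_self (by norm_num)
    omega
  obtain ⟨D, hD1, hD2, hD3⟩ := exists_D_aux N k (by omega) hkN h4
  refine ⟨D, hD1, ?_, hD3.trans ?_⟩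
  · intro p hp
    have := mem_box.1 (hD2 p hp)
    push_cast at this
    rw [abs_le, abs_le]
    omega
  · have hNr : (2 : ℝ) ≤ N := by exact_mod_cast hN
    have hlog : 0 < Real.log N := Real.log_pos (by linarith)
    have hlogk : Real.log N ≤ k * Real.log 4 := by
      rw [← Real.log_pow]
      apply Real.log_le_log (by linarith)
      exact_mod_cast h2.le
    have hlog4 : Real.log 4 ≤ 14 / 10 := by
      have : (4 : ℝ) = 2 ^ 2 := by norm_num
      rw [this, Real.log_pow]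
      have := Real.log_two_lt_d9
      push_cast
      linarith
    have hk0 : (0 : ℝ) < k := by
      rw [hk]; push_cast; positivity
    have hlk : Real.log N ≤ 14 / 10 * k := by nlinarith
    have hs : 0 < Real.sqrt k := Real.sqrt_pos.2 hk0
    have hl : 0 < Real.sqrt (Real.log N) := Real.sqrt_pos.2 hlog
    rw [div_le_div_iff₀ hs hl]
    have h5 : 788 * Real.sqrt (Real.log N) ≤ 1000 * Real.sqrt k := by
      refine le_of_sq_le_sq ?_ (by positivity)
      rw [mul_pow, mul_pow, Real.sq_sqrt hlog.le, Real.sq_sqrt hk0.le]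
      nlinarith
    have hN0' : (0 : ℝ) ≤ N := by linarith
    calc 788 * (N : ℝ) * Real.sqrt (Real.log N) = N * (788 * Real.sqrt (Real.log N)) := by ring
      _ ≤ N * (1000 * Real.sqrt k) := mul_le_mul_of_nonneg_left h5 hN0'
      _ = 1000 * N * Real.sqrt k := by ring

end Pool.Agent.Helper40.FR
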