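import Pool.Agent.Helper40.FR.Flux

/-!
# Orbits, symmetric points and the counting argument
-/

set_option autoImplicit false

namespace Pool.Agent.Helper40.FR

open Finset

theorem T_inj : Function.Injective T := by
  rintro ⟨x, y⟩ ⟨x', y'⟩ h
  simp only [T, Prod.mk.injEq] at h ⊢
  omega

theorem it_succ (n : ℕ) (p : ℤ × ℤ) : T^[n] (T p) = T (T^[n] p) := by
  rw [← Function.iterate_succ_apply, Function.iterate_succ_apply']

/-- Boundedness of the forward orbit. -/
def Bdd (p : ℤ × ℤ) : Prop := ∃ C : ℤ, ∀ n : ℕ, |(T^[n] p).1| ≤ C ∧ |(T^[n] p).2| ≤ C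

/-- The orbit. -/
def orb (p : ℤ × ℤ) : Set (ℤ × ℤ) := {q | ∃ n : ℕ, T^[n] p = q ∨ T^[n] q = p}

theorem mem_orb_self (p : ℤ × ℤ) : p ∈ orb p := ⟨0, Or.inl rfl⟩

theorem orb_symm {p q : ℤ × ℤ} (h : q ∈ orb p) : p ∈ orb q := by
  obtain ⟨n, h | h⟩ := h
  exacts [⟨n, Or.inr h⟩, ⟨n, Or.inl h⟩]

theorem orb_of_eq {n m : ℕ} {p r : ℤ × ℤ} (h : T^[n] p = T^[m] r) : r ∈ orb p := by
  rcases le_total m n with hnm | hnm
  · obtain ⟨d, rfl⟩ := Nat.exists_eq_add_of_le hnm
    rw [Function.iterate_add_apply] at h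
    exact ⟨d, Or.inl (T_inj.iterate m h)⟩
  · obtain ⟨d, rfl⟩ := Nat.exists_eq_add_of_le hnm
    rw [Function.iterate_add_apply] at h
    exact ⟨d, Or.inr (T_inj.iterate n h).symm⟩

theorem orb_trans {p q r : ℤ × ℤ} (h : q ∈ orb p) (h' : r ∈ orb q) : r ∈ orb p := by
  obtain ⟨n, h | h⟩ := h
  · obtain ⟨m, h' | h'⟩ := h'
    · refine ⟨m + n, Or.inl ?_⟩
      rw [Function.iterate_add_apply, h, h']
    · exact orb_of_eq (h.trans h'.symm)
  · obtain ⟨m, h' | h'⟩ := h'
    · have e1 : T^[m] p = T^[n] r := by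
        rw [← h, ← h', ← Function.iterate_add_apply, ← Function.iterate_add_apply, add_comm]
      exact orb_of_eq e1
    · refine ⟨n + m, Or.inr ?_⟩
      rw [Function.iterate_add_apply, h', h]

theorem orb_eq {p q : ℤ × ℤ} (h : q ∈ orb p) : orb q = orb p := by
  ext r
  exact ⟨fun hr => orb_trans h hr, fun hr => orb_trans (orb_symm h) hr⟩

theorem bdd_of_mem (D : Finset (ℤ × ℤ)) (p : ℤ × ℤ) (h : ∀ n, T^[n] p ∈ D) : Bdd p := by
  refine ⟨∑ q ∈ D, (|q.1| + |q.2|), fun n => ?_⟩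
  have h1 : |(T^[n] p).1| + |(T^[n] p).2| ≤ ∑ q ∈ D, (|q.1| + |q.2|) :=
    Finset.single_le_sum (f := fun q : ℤ × ℤ => |q.1| + |q.2|) (fun q _ => by positivity) (h n)
  have h2 := abs_nonneg (T^[n] p).1
  have h3 := abs_nonneg (T^[n] p).2
  constructor <;> linarith

theorem bdd_of_periodic (p : ℤ × ℤ) (m : ℕ) (hm : 0 < m) (h : T^[m] p = p) : Bdd p := by
  classical
  refine bdd_of_mem ((range m).image fun i => T^[i] p) p fun n => ?_
  refine Finset.mem_image.2 ⟨n % m, Finset.mem_range.2 (Nat.mod_lt _ hm), ?_⟩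
  exact Function.IsPeriodicPt.iterate_mod_apply (show Function.IsPeriodicPt T m p from h) n

theorem exists_exit (D : Finset (ℤ × ℤ)) (p : ℤ × ℤ) (hp : p ∈ D) (h : ¬ Bdd p) :
    ∃ n, T^[n] p ∈ D ∧ T (T^[n] p) ∉ D := by
  by_contra hcon
  push Not at hcon
  apply h
  refine bdd_of_mem D p fun n => ?_
  induction n with
  | zero => exact hp
  | succ n ih =>
    rw [Function.iterate_succ_apply']
    exact hcon n ih

/-- The square. -/
def sq (N : ℕ) : Set (ℤ × ℤ) := {p | |p.1| ≤ N ∧ |p.2| ≤ N}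

theorem sq_finite (N : ℕ) : (sq N).Finite := by
  refine Set.Finite.subset (Finset.finite_toSet (box (N + 1))) ?_
  intro p hp
  rw [Finset.mem_coe, mem_box]
  have h := hp
  simp only [sq, Set.mem_ofPred_eq, abs_le] at h
  push_cast
  omega

/-- The unbounded orbits which meet the square. -/
def unb (N : ℕ) : Set (Set (ℤ × ℤ)) := {O | ∃ p ∈ sq N, ¬ Bdd p ∧ O = orb p}

/-- All orbits which meet the square. -/
def all (N : ℕ) : Set (Set (ℤ × ℤ)) := {O | ∃ p ∈ sq N, O = orb p}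

theorem all_finite (N : ℕ) : (all N).Finite := by
  refine ((sq_finite N).image orb).subset ?_
  rintro O ⟨p, hp, rfl⟩
  exact ⟨p, hp, rfl⟩

theorem unb_finite (N : ℕ) : (unb N).Finite := by
  refine (all_finite N).subset ?_
  rintro O ⟨p, hp, -, rfl⟩
  exact ⟨p, hp, rfl⟩

theorem ncard_unb_le (N : ℕ) (D : Finset (ℤ × ℤ))
    (hD : ∀ p : ℤ × ℤ, |p.1| ≤ N → |p.2| ≤ N → p ∈ D) :
    (unb N).ncard ≤ (D.filter fun p => T p ∉ D).card := by
  classical
  have h : ∀ O ∈ unb N, ∃ q ∈ D.filter (fun p => T p ∉ D), O = orb q := by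
    rintro O ⟨p, hp, hub, rfl⟩
    obtain ⟨n, h1, h2⟩ := exists_exit D p (hD p hp.1 hp.2) hub
    exact ⟨T^[n] p, Finset.mem_filter.2 ⟨h1, h2⟩, (orb_eq ⟨n, Or.inl rfl⟩).symm⟩
  have hsub : unb N ⊆ orb '' (D.filter (fun p => T p ∉ D) : Set (ℤ × ℤ)) := by
    intro O hO
    obtain ⟨q, hq, rfl⟩ := h O hO
    exact ⟨q, hq, rfl⟩
  calc (unb N).ncard ≤ (orb '' (D.filter (fun p => T p ∉ D) : Set (ℤ × ℤ))).ncard :=
        Set.ncard_le_ncard hsub ((Finset.finite_toSet _).image _)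
    _ ≤ (D.filter (fun p => T p ∉ D) : Set (ℤ × ℤ)).ncard :=
        Set.ncard_image_le (Finset.finite_toSet _)
    _ = (D.filter fun p => T p ∉ D).card := Set.ncard_coe_finset _

/-- The reversing involution. -/
def R (p : ℤ × ℤ) : ℤ × ℤ := (-p.1, p.2 - p.1)

theorem T_R_T (p : ℤ × ℤ) : T (R (T p)) = R p := by
  obtain ⟨x, y⟩ := p
  simp only [T, R, Prod.mk.injEq]
  omega

theorem R_iter (n : ℕ) (p : ℤ × ℤ) : T^[n] (R (T^[n] p)) = R p := by
  induction n generalizing p with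
  | zero => rfl
  | succ n ih =>
    rw [Function.iterate_succ_apply (n := n) (x := p), Function.iterate_succ_apply', ih, T_R_T]

theorem R_eq {p : ℤ × ℤ} (h : p.1 = 0) : R p = p := by
  obtain ⟨x, y⟩ := p
  simp only at h
  subst h
  simp [R]

theorem TR_eq {p : ℤ × ℤ} (h : p.2 = 4 * p.1 ∨ p.2 = 4 * p.1 + 1) : T (R p) = p := by
  obtain ⟨x, y⟩ := p
  simp only at h
  simp only [T, R, Prod.mk.injEq]
  omega

/-- The symmetric points. -/
def Sym (p : ℤ × ℤ) : Prop := p.1 = 0 ∨ p.2 = 4 * p.1 ∨ p.2 = 4 * p.1 + 1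

theorem periodic_of_sym {p q : ℤ × ℤ} (hp : Sym p) (hq : Sym q) (n : ℕ) (hn : T^[n] p = q)
    (hpq : p ≠ q) : ∃ m, 0 < m ∧ T^[m] p = p := by
  have hn0 : 0 < n := by
    rcases Nat.eq_zero_or_pos n with h | h
    · subst h
      exact absurd hn hpq
    · exact h
  have h := R_iter n p
  rw [hn] at h
  rcases hp with hp | hp
  · rcases hq with hq | hq
    · rw [R_eq hp, R_eq hq] at h
      refine ⟨n + n, by omega, ?_⟩
      rw [Function.iterate_add_apply, hn, h]
    · rw [R_eq hp] at h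
      have h2 : T^[n] (T (R q)) = T p := by
        rw [it_succ, h]
      rw [TR_eq hq, ← hn, ← Function.iterate_add_apply] at h2
      refine ⟨n + n - 1, by omega, ?_⟩
      apply T_inj
      rw [← h2, ← it_succ, ← Function.iterate_succ_apply]
      congr 1
      omega
  · rcases hq with hq | hq
    · rw [R_eq hq] at h
      refine ⟨n + n + 1, by omega, ?_⟩
      rw [Function.iterate_succ_apply', Function.iterate_add_apply, hn, h, TR_eq hp]
    · have h2 : T^[n] (T (R q)) = T (R p) := by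
        rw [it_succ, h]
      rw [TR_eq hp, TR_eq hq, ← hn, ← Function.iterate_add_apply] at h2
      exact ⟨n + n, by omega, h2⟩

theorem bdd_of_sym {p q : ℤ × ℤ} (hp : Sym p) (hq : Sym q) (hpq : p ≠ q) (h : q ∈ orb p) :
    Bdd p := by
  obtain ⟨n, h | h⟩ := h
  · obtain ⟨m, hm, hm'⟩ := periodic_of_sym hp hq n h hpq
    exact bdd_of_periodic p m hm hm'
  · obtain ⟨m, hm, hm'⟩ := periodic_of_sym hq hp n h hpq.symm
    refine bdd_of_periodic p m hm ?_
    rw [← h, ← Function.iterate_add_apply, add_comm, Function.iterate_add_apply, hm']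

theorem ncard_sym_le (N : ℕ) :
    {p : ℤ × ℤ | p ∈ sq N ∧ Sym p ∧ ¬ Bdd p}.ncard ≤ (unb N).ncard := by
  refine Set.ncard_le_ncard_of_injOn orb ?_ ?_ (unb_finite N)
  · rintro p ⟨h1, -, h3⟩
    exact ⟨p, h1, h3, rfl⟩
  · rintro p ⟨-, h2, h3⟩ q ⟨-, h2', -⟩ hpq
    by_contra hne
    apply h3
    refine bdd_of_sym h2 h2' hne ?_
    rw [hpq]
    exact mem_orb_self q

theorem eq_half {p q : ℤ × ℤ} (hp : p.1 = 0) (hq : q.1 = 0) (hpq : p ≠ q) (h : q ∈ orb p) :
    q = T^[Function.minimalPeriod T p / 2] p := by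
  obtain ⟨n, hn, hn'⟩ : ∃ n, T^[n] p = q ∧ T^[n] q = p := by
    obtain ⟨n, h | h⟩ := h
    · refine ⟨n, h, ?_⟩
      have h1 := R_iter n p
      rw [h, R_eq hp, R_eq hq] at h1
      exact h1
    · refine ⟨n, ?_, h⟩
      have h1 := R_iter n q
      rw [h, R_eq hp, R_eq hq] at h1
      exact h1
  have hn0 : 0 < n := by
    rcases Nat.eq_zero_or_pos n with h | h
    · subst h
      exact absurd hn hpq
    · exact h
  have hper : Function.IsPeriodicPt T (n + n) p := by
    show T^[n + n] p = p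
    rw [Function.iterate_add_apply, hn, hn']
  have hm0 : 0 < Function.minimalPeriod T p := hper.minimalPeriod_pos (by omega)
  have hdvd : Function.minimalPeriod T p ∣ n + n := hper.minimalPeriod_dvd
  set m := Function.minimalPeriod T p with hm
  have hmod : T^[n % m] p = q := by
    rw [hm, Function.iterate_mod_minimalPeriod_eq, hn]
  have h1 : n % m ≠ 0 := by
    intro h0
    rw [h0] at hmod
    exact hpq hmod
  have h2 : n % m < m := Nat.mod_lt _ hm0
  have h3 : m ∣ n % m + n % m := by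
    have e : n + n = m * (n / m + n / m) + (n % m + n % m) := by
      have := Nat.div_add_mod n m
      nlinarith
    rw [e] at hdvd
    exact (Nat.dvd_add_right (dvd_mul_right _ _)).1 hdvd
  obtain ⟨c, hc⟩ := h3
  have hc1 : c = 1 := by
    rcases c with _ | _ | c
    · omega
    · rfl
    · exfalso
      have : m * (c + 1 + 1) = m * c + m + m := by ring
      rw [this] at hc
      have := Nat.zero_le (m * c)
      omega
  have h4 : n % m = m / 2 := by
    rw [hc1, mul_one] at hc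
    omega
  rw [← h4, hmod]

theorem le_ncard_all (N : ℕ) : N + 1 ≤ (all N).ncard := by
  classical
  set s : Finset (ℤ × ℤ) := (Finset.Icc (-(N : ℤ)) N).image fun y => ((0 : ℤ), y) with hs
  have hcard : s.card = 2 * N + 1 := by
    rw [hs, Finset.card_image_of_injective _ (fun a b h => by simpa using h), Int.card_Icc]
    omega
  have hs1 : ∀ p ∈ s, p.1 = 0 ∧ p ∈ sq N := by
    intro p hp
    rw [hs, Finset.mem_image] at hp
    obtain ⟨y, hy, rfl⟩ := hp
    rw [Finset.mem_Icc] at hy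
    refine ⟨rfl, ?_⟩
    simp only [sq, Set.mem_ofPred_eq, abs_le]
    omega
  have h2 : s.card ≤ 2 * (s.image orb).card := by
    refine Finset.card_le_mul_card_image s 2 ?_
    intro O _
    by_contra hcon
    rw [not_le, Finset.two_lt_card] at hcon
    obtain ⟨a, ha, b, hb, c, hc, hab, hac, hbc⟩ := hcon
    rw [Finset.mem_filter] at ha hb hc
    have ha0 := (hs1 a ha.1).1
    have hb0 := (hs1 b hb.1).1
    have hc0 := (hs1 c hc.1).1
    have hb' : b ∈ orb a := by
      rw [ha.2, ← hb.2]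
      exact mem_orb_self b
    have hc' : c ∈ orb a := by
      rw [ha.2, ← hc.2]
      exact mem_orb_self c
    apply hbc
    rw [eq_half ha0 hb0 hab hb', eq_half ha0 hc0 hac hc']
  have h3 : (s.image orb).card ≤ (all N).ncard := by
    rw [← Set.ncard_coe_finset]
    refine Set.ncard_le_ncard ?_ (all_finite N)
    intro O hO
    rw [Finset.mem_coe, Finset.mem_image] at hO
    obtain ⟨p, hp, rfl⟩ := hO
    exact ⟨p, (hs1 p hp).2, rfl⟩
  omega

end Pool.Agent.Helper40.FR
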