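import Pool.Agent.Helper40.FR.Basic

/-!
# The second moment of the drift over a box
-/

set_option autoImplicit false

namespace Pool.Agent.Helper40.FR

open Finset

/-- Sums of a slowly varying function against an antiperiodic one. -/
theorem anti (m h : ℕ) (a G : ℕ → ℝ) (F K : ℝ) (ha : ∀ n, a (n + h) = -a n)
    (ha1 : ∀ n, |a n| ≤ 1) (hF : ∀ n < m + h, |G n| ≤ F)
    (hK : ∀ n < m, |G (n + h) - G n| ≤ K) :
    |∑ n ∈ range m, a n * G n| ≤ m * K / 2 + h * F := by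
  have e1 := Finset.sum_range_add (fun n => a n * G n) m h
  have e2 := Finset.sum_range_add (fun n => a n * G n) h m
  have e3 : ∑ n ∈ range m, a (h + n) * G (h + n) =
      -∑ n ∈ range m, a n * G n - ∑ n ∈ range m, a n * (G (n + h) - G n) := by
    rw [← Finset.sum_neg_distrib, ← Finset.sum_sub_distrib]
    refine Finset.sum_congr rfl fun n _ => ?_
    rw [add_comm h n, ha n]
    ring
  have b1 : |∑ n ∈ range m, a n * (G (n + h) - G n)| ≤ m * K := by
    refine (Finset.abs_sum_le_sum_abs _ _).trans ?_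
    have : ∀ n ∈ range m, |a n * (G (n + h) - G n)| ≤ K := by
      intro n hn
      rw [abs_mul]
      have h1 := ha1 n
      have h2 := hK n (Finset.mem_range.1 hn)
      calc |a n| * |G (n + h) - G n| ≤ 1 * |G (n + h) - G n| :=
            mul_le_mul_of_nonneg_right h1 (abs_nonneg _)
        _ ≤ K := by rw [one_mul]; exact h2
    refine (Finset.sum_le_sum this).trans ?_
    simp
  have b2 : |∑ n ∈ range h, a (m + n) * G (m + n)| ≤ h * F := by
    refine (Finset.abs_sum_le_sum_abs _ _).trans ?_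
    have : ∀ n ∈ range h, |a (m + n) * G (m + n)| ≤ F := by
      intro n hn
      rw [abs_mul]
      have h1 := ha1 (m + n)
      have h2 := hF (m + n) (by have := Finset.mem_range.1 hn; omega)
      calc |a (m + n)| * |G (m + n)| ≤ 1 * |G (m + n)| :=
            mul_le_mul_of_nonneg_right h1 (abs_nonneg _)
        _ ≤ F := by rw [one_mul]; exact h2
    refine (Finset.sum_le_sum this).trans ?_
    simp
  have b3 : |∑ n ∈ range h, a n * G n| ≤ h * F := by
    refine (Finset.abs_sum_le_sum_abs _ _).trans ?_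
    have : ∀ n ∈ range h, |a n * G n| ≤ F := by
      intro n hn
      rw [abs_mul]
      have h1 := ha1 n
      have h2 := hF n (by have := Finset.mem_range.1 hn; omega)
      calc |a n| * |G n| ≤ 1 * |G n| :=
            mul_le_mul_of_nonneg_right h1 (abs_nonneg _)
        _ ≤ F := by rw [one_mul]; exact h2
    refine (Finset.sum_le_sum this).trans ?_
    simp
  rw [add_comm h m, e1, e3] at e2
  rw [abs_le] at b1 b2 b3 ⊢
  constructor <;> linarith [b1.1, b1.2, b2.1, b2.2, b3.1, b3.2]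

/-- The box. -/
noncomputable def box (M : ℕ) : Finset (ℤ × ℤ) := Finset.Ico (-(M : ℤ)) M ×ˢ Finset.Ico (-(M : ℤ)) M

theorem mem_box {M : ℕ} {p : ℤ × ℤ} :
    p ∈ box M ↔ (-(M : ℤ) ≤ p.1 ∧ p.1 < M) ∧ (-(M : ℤ) ≤ p.2 ∧ p.2 < M) := by
  simp [box]

theorem card_box (M : ℕ) : (box M).card = 4 * M ^ 2 := by
  unfold box
  rw [Finset.card_product, Int.card_Ico]
  have : ((M : ℤ) - -(M : ℤ)).toNat = 2 * M := by omega
  rw [this]
  ring

theorem sum_Ico_int (M : ℕ) (f : ℤ → ℝ) :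
    ∑ y ∈ Finset.Ico (-(M : ℤ)) M, f y = ∑ n ∈ range (2 * M), f (-(M : ℤ) + n) := by
  symm
  refine Finset.sum_bij (fun n _ => -(M : ℤ) + n) ?_ ?_ ?_ ?_
  · intro n hn
    have := Finset.mem_range.1 hn
    rw [Finset.mem_Ico]
    constructor <;> omega
  · intro n _ m _ h
    omega
  · intro y hy
    rw [Finset.mem_Ico] at hy
    refine ⟨(y + M).toNat, ?_, ?_⟩
    · rw [Finset.mem_range]; omega
    · omega
  · intro n _
    rfl

theorem norm_z_le (x y : ℤ) : ‖z (x, y)‖ ≤ |(y : ℝ) - 1 / 2| + 3 / 2 * |(x : ℝ)| := by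
  unfold z
  refine (norm_add_le _ _).trans ?_
  refine add_le_add ?_ ?_
  · have : ((y : ℂ) - 1 / 2) = (((y : ℝ) - 1 / 2 : ℝ) : ℂ) := by push_cast; rfl
    simp only
    rw [this, Complex.norm_real, Real.norm_eq_abs]
  · rw [norm_mul]
    simp only
    have : ((x : ℤ) : ℂ) = ((x : ℝ) : ℂ) := by push_cast; rfl
    rw [this, Complex.norm_real, Real.norm_eq_abs]
    exact mul_le_mul_of_nonneg_right norm_tau_le (abs_nonneg _)

theorem z_shift (x y : ℤ) (h : ℕ) : z (x, y + h) = z (x, y) + (h : ℂ) := by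
  unfold z
  push_cast
  ring

/-- The off-diagonal terms. -/
theorem off_diag (M i j : ℕ) (hM : 1 ≤ M) (hij : i < j) (hj : 2 ^ j ≤ M) :
    |∑ p ∈ box M, η (T^[i] p) * η (T^[j] p) * (c i (z p) * c j (z p))| ≤
      88 * 2 ^ j * (M : ℝ) ^ 3 := by
  have hM1 : (1 : ℝ) ≤ M := by exact_mod_cast hM
  have hj' : (2 : ℝ) ^ j ≤ M := by exact_mod_cast hj
  have h2j : (0 : ℝ) < 2 ^ j := by positivity
  unfold box
  rw [Finset.sum_product]
  refine (Finset.abs_sum_le_sum_abs _ _).trans ?_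
  have key : ∀ x ∈ Finset.Ico (-(M : ℤ)) M,
      |∑ y ∈ Finset.Ico (-(M : ℤ)) M, η (T^[i] (x, y)) * η (T^[j] (x, y)) *
        (c i (z (x, y)) * c j (z (x, y)))| ≤ 44 * 2 ^ j * (M : ℝ) ^ 2 := by
    intro x hx
    rw [Finset.mem_Ico] at hx
    have hxa : |(x : ℝ)| ≤ M := by
      rw [abs_le]
      exact ⟨by exact_mod_cast hx.1, by exact_mod_cast hx.2.le⟩
    rw [sum_Ico_int]
    have hz : ∀ n < 2 * M + 2 ^ j, ‖z (x, -(M : ℤ) + n)‖ ≤ 7 / 2 * M := by
      intro n hn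
      refine (norm_z_le _ _).trans ?_
      have hn' : (n : ℝ) ≤ 2 * M + 2 ^ j - 1 := by
        have : n + 1 ≤ 2 * M + 2 ^ j := hn
        have : ((n + 1 : ℕ) : ℝ) ≤ ((2 * M + 2 ^ j : ℕ) : ℝ) := by exact_mod_cast this
        push_cast at this
        linarith
      have hn0 : (0 : ℝ) ≤ n := Nat.cast_nonneg n
      have : |(((-(M : ℤ) + n : ℤ)) : ℝ) - 1 / 2| ≤ 2 * M := by
        push_cast
        rw [abs_le]
        constructor <;> linarith
      linarith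
    have hc : ∀ l : ℕ, ∀ n < 2 * M + 2 ^ j, |c l (z (x, -(M : ℤ) + n))| ≤ 21 / 4 * M := by
      intro l n hn
      refine (abs_c _ _).trans ?_
      have := hz n hn
      linarith
    have ha := anti (2 * M) (2 ^ j)
      (fun n => η (T^[i] (x, -(M : ℤ) + n)) * η (T^[j] (x, -(M : ℤ) + n)))
      (fun n => c i (z (x, -(M : ℤ) + n)) * c j (z (x, -(M : ℤ) + n)))
      (28 * M ^ 2) (16 * M * 2 ^ j) ?_ ?_ ?_ ?_
    · refine ha.trans ?_
      push_cast
      nlinarith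
    · intro n
      have e : (-(M : ℤ) + ((n + 2 ^ j : ℕ) : ℤ)) = (-(M : ℤ) + n) + 2 ^ j := by
        push_cast; ring
      rw [e, η_lt hij, η_eq]
      ring
    · intro n
      rw [abs_mul, abs_η, abs_η, one_mul]
    · intro n hn
      rw [abs_mul]
      have h1 := hc i n hn
      have h2 := hc j n hn
      calc |c i (z (x, -(M : ℤ) + n))| * |c j (z (x, -(M : ℤ) + n))|
          ≤ (21 / 4 * M) * (21 / 4 * M) := mul_le_mul h1 h2 (abs_nonneg _) (by positivity)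
        _ ≤ 28 * M ^ 2 := by nlinarith
    · intro n hn
      have e : (-(M : ℤ) + ((n + 2 ^ j : ℕ) : ℤ)) = (-(M : ℤ) + n) + ((2 ^ j : ℕ) : ℤ) := by
        push_cast; ring
      have hz' : z (x, -(M : ℤ) + ((n + 2 ^ j : ℕ) : ℤ)) = z (x, -(M : ℤ) + n) +
          ((2 ^ j : ℕ) : ℂ) := by
        rw [e, z_shift]
      have h1 := hc i n (Nat.lt_of_lt_of_le hn (Nat.le_add_right _ _))
      have h2 := hc j (n + 2 ^ j) (Nat.add_lt_add_right hn _)
      have hh : ∀ l : ℕ, |c l (((2 ^ j : ℕ) : ℂ))| ≤ 3 / 2 * 2 ^ j := by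
        intro l
        refine (abs_c _ _).trans ?_
        simp
      have e2 : c i (z (x, -(M : ℤ) + ((n + 2 ^ j : ℕ) : ℤ))) *
          c j (z (x, -(M : ℤ) + ((n + 2 ^ j : ℕ) : ℤ))) -
          c i (z (x, -(M : ℤ) + n)) * c j (z (x, -(M : ℤ) + n)) =
          c i (((2 ^ j : ℕ) : ℂ)) * c j (z (x, -(M : ℤ) + ((n + 2 ^ j : ℕ) : ℤ))) +
          c i (z (x, -(M : ℤ) + n)) * c j (((2 ^ j : ℕ) : ℂ)) := by
        have ei : c i (z (x, -(M : ℤ) + ((n + 2 ^ j : ℕ) : ℤ))) =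
            c i (z (x, -(M : ℤ) + n)) + c i (((2 ^ j : ℕ) : ℂ)) := by rw [hz', c_add]
        have ej : c j (z (x, -(M : ℤ) + ((n + 2 ^ j : ℕ) : ℤ))) =
            c j (z (x, -(M : ℤ) + n)) + c j (((2 ^ j : ℕ) : ℂ)) := by rw [hz', c_add]
        rw [ei, ej]
        ring
      rw [e2]
      refine (abs_add_le _ _).trans ?_
      rw [abs_mul, abs_mul]
      have h3 : |c i (((2 ^ j : ℕ) : ℂ))| * |c j (z (x, -(M : ℤ) + ((n + 2 ^ j : ℕ) : ℤ)))| ≤
          (3 / 2 * 2 ^ j) * (21 / 4 * M) :=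
        mul_le_mul (hh i) h2 (abs_nonneg _) (by positivity)
      have h4 : |c i (z (x, -(M : ℤ) + n))| * |c j (((2 ^ j : ℕ) : ℂ))| ≤
          (21 / 4 * M) * (3 / 2 * 2 ^ j) :=
        mul_le_mul h1 (hh j) (abs_nonneg _) (by positivity)
      have h5 : (0 : ℝ) ≤ M * 2 ^ j := by positivity
      linarith
  refine (Finset.sum_le_sum key).trans ?_
  rw [Finset.sum_const, Int.card_Ico]
  have : ((M : ℤ) - -(M : ℤ)).toNat = 2 * M := by omega
  rw [this, nsmul_eq_mul]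
  push_cast
  apply le_of_eq
  ring

/-- The diagonal terms. -/
theorem diag (M i : ℕ) (hM : 1 ≤ M) :
    |∑ p ∈ box M, η (T^[i] p) * η (T^[i] p) * (c i (z p) * c i (z p))| ≤ 81 * (M : ℝ) ^ 4 := by
  have hM1 : (1 : ℝ) ≤ M := by exact_mod_cast hM
  refine (Finset.abs_sum_le_sum_abs _ _).trans ?_
  have key : ∀ p ∈ box M, |η (T^[i] p) * η (T^[i] p) * (c i (z p) * c i (z p))| ≤
      81 / 4 * (M : ℝ) ^ 2 := by
    rintro ⟨x, y⟩ hp
    rw [mem_box] at hp
    simp only at hp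
    have hx : |(x : ℝ)| ≤ M := by
      rw [abs_le]
      exact ⟨by exact_mod_cast hp.1.1, by exact_mod_cast hp.1.2.le⟩
    have hy : |(y : ℝ) - 1 / 2| ≤ 3 / 2 * M := by
      have h1 : -(M : ℝ) ≤ y := by exact_mod_cast hp.2.1
      have h2 : (y : ℝ) ≤ M := by exact_mod_cast hp.2.2.le
      rw [abs_le]
      constructor <;> linarith
    have hz := norm_z_le x y
    have hc := abs_c i (z (x, y))
    have hcc : |c i (z (x, y))| ≤ 9 / 2 * M := by linarith
    rw [abs_mul, abs_mul, abs_η, abs_mul, one_mul, one_mul]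
    calc |c i (z (x, y))| * |c i (z (x, y))| ≤ (9 / 2 * M) * (9 / 2 * M) :=
          mul_le_mul hcc hcc (abs_nonneg _) (by positivity)
      _ = 81 / 4 * (M : ℝ) ^ 2 := by ring
  refine (Finset.sum_le_sum key).trans ?_
  rw [Finset.sum_const, card_box, nsmul_eq_mul]
  push_cast
  apply le_of_eq
  ring

/-- The second moment. -/
theorem second_moment (M k : ℕ) (hk : 1 ≤ k) (hM : k * 2 ^ k ≤ M) :
    ∑ p ∈ box M, (∑ j ∈ range k, η (T^[j] p) * c j (z p)) ^ 2 ≤ 125 * k * (M : ℝ) ^ 4 := by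
  have h2k : 1 ≤ 2 ^ k := Nat.one_le_two_pow
  have hM1 : 1 ≤ M := le_trans (by nlinarith) hM
  have hMr : (1 : ℝ) ≤ M := by exact_mod_cast hM1
  have hMk : (2 : ℕ) ^ k ≤ M := le_trans (by nlinarith) hM
  have hMr' : (k : ℝ) * 2 ^ k ≤ M := by exact_mod_cast hM
  have e : ∑ p ∈ box M, (∑ j ∈ range k, η (T^[j] p) * c j (z p)) ^ 2 =
      ∑ i ∈ range k, ∑ j ∈ range k,
        ∑ p ∈ box M, η (T^[i] p) * η (T^[j] p) * (c i (z p) * c j (z p)) := by
    rw [Finset.sum_congr rfl fun p _ => by rw [pow_two, Finset.sum_mul_sum]]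
    rw [Finset.sum_comm]
    refine Finset.sum_congr rfl fun i _ => ?_
    rw [Finset.sum_comm]
    refine Finset.sum_congr rfl fun j _ => ?_
    refine Finset.sum_congr rfl fun p _ => ?_
    ring
  rw [e]
  have key : ∀ i ∈ range k, ∀ j ∈ range k,
      ∑ p ∈ box M, η (T^[i] p) * η (T^[j] p) * (c i (z p) * c j (z p)) ≤
        (if i = j then 81 * (M : ℝ) ^ 4 else 0) + 44 * 2 ^ k * (M : ℝ) ^ 3 := by
    intro i hi j hj
    have hi' := Finset.mem_range.1 hi
    have hj' := Finset.mem_range.1 hj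
    have hpos : (0 : ℝ) ≤ 44 * 2 ^ k * (M : ℝ) ^ 3 := by positivity
    have hp : ∀ l < k, (88 : ℝ) * 2 ^ l * (M : ℝ) ^ 3 ≤ 44 * 2 ^ k * (M : ℝ) ^ 3 := by
      intro l hl
      refine mul_le_mul_of_nonneg_right ?_ (by positivity)
      have : (2 : ℝ) ^ (l + 1) ≤ 2 ^ k := pow_le_pow_right₀ (by norm_num) hl
      rw [pow_succ] at this
      linarith
    have hpn : ∀ l < k, (2 : ℕ) ^ l ≤ M := fun l hl =>
      (Nat.pow_le_pow_right (by norm_num) hl.le).trans hMk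
    rcases lt_trichotomy i j with h | h | h
    · rw [if_neg h.ne, zero_add]
      exact ((le_abs_self _).trans (off_diag M i j hM1 h (hpn j hj'))).trans (hp j hj')
    · subst h
      rw [if_pos rfl]
      have := (le_abs_self _).trans (diag M i hM1)
      linarith
    · rw [if_neg h.ne', zero_add]
      have e2 : ∑ p ∈ box M, η (T^[i] p) * η (T^[j] p) * (c i (z p) * c j (z p)) =
          ∑ p ∈ box M, η (T^[j] p) * η (T^[i] p) * (c j (z p) * c i (z p)) :=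
        Finset.sum_congr rfl fun p _ => by ring
      rw [e2]
      exact ((le_abs_self _).trans (off_diag M j i hM1 h (hpn i hi'))).trans (hp i hi')
  refine (Finset.sum_le_sum fun i hi => Finset.sum_le_sum fun j hj => key i hi j hj).trans ?_
  have e3 : ∑ i ∈ range k, ∑ j ∈ range k,
      ((if i = j then 81 * (M : ℝ) ^ 4 else 0) + 44 * 2 ^ k * (M : ℝ) ^ 3) =
      k * (81 * (M : ℝ) ^ 4) + k * (k * (44 * 2 ^ k * (M : ℝ) ^ 3)) := by
    simp only [Finset.sum_add_distrib, Finset.sum_const, Finset.card_range, nsmul_eq_mul]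
    congr 1
    rw [Finset.sum_congr rfl (g := fun _ => 81 * (M : ℝ) ^ 4)]
    · simp
    · intro i hi
      rw [Finset.sum_ite_eq, if_pos hi]
  rw [e3]
  have h5 : (k : ℝ) * (k * (44 * 2 ^ k * (M : ℝ) ^ 3)) ≤ k * (44 * (M : ℝ) ^ 4) := by
    refine mul_le_mul_of_nonneg_left ?_ (Nat.cast_nonneg k)
    calc (k : ℝ) * (44 * 2 ^ k * (M : ℝ) ^ 3) = 44 * ((k : ℝ) * 2 ^ k) * (M : ℝ) ^ 3 := by ring
      _ ≤ 44 * (M : ℝ) * (M : ℝ) ^ 3 := by gcongr
      _ = 44 * (M : ℝ) ^ 4 := by ring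
  linarith

/-- The first moment of the drift. -/
theorem drift_sum (M k : ℕ) (hk : 1 ≤ k) (hM : k * 2 ^ k ≤ M) :
    ∑ p ∈ box M, |‖z (T^[k] p)‖ ^ 2 - ‖z p‖ ^ 2| ≤
      12 * Real.sqrt k * (M : ℝ) ^ 3 + (k : ℝ) ^ 2 * (M : ℝ) ^ 2 / 2 := by
  have h1 : (∑ p ∈ box M, |∑ j ∈ range k, η (T^[j] p) * c j (z p)|) ^ 2 ≤
      (23 * Real.sqrt k * (M : ℝ) ^ 3) ^ 2 := by
    refine (sq_sum_le_card_mul_sum_sq).trans ?_
    have e : ∑ p ∈ box M, |∑ j ∈ range k, η (T^[j] p) * c j (z p)| ^ 2 =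
        ∑ p ∈ box M, (∑ j ∈ range k, η (T^[j] p) * c j (z p)) ^ 2 :=
      Finset.sum_congr rfl fun p _ => sq_abs _
    rw [e, card_box]
    have h2 := second_moment M k hk hM
    have hsq : Real.sqrt k ^ 2 = k := Real.sq_sqrt (Nat.cast_nonneg k)
    calc ((4 * M ^ 2 : ℕ) : ℝ) * ∑ p ∈ box M, (∑ j ∈ range k, η (T^[j] p) * c j (z p)) ^ 2
        ≤ ((4 * M ^ 2 : ℕ) : ℝ) * (125 * k * (M : ℝ) ^ 4) :=
          mul_le_mul_of_nonneg_left h2 (Nat.cast_nonneg _)
      _ = 500 * k * (M : ℝ) ^ 6 := by push_cast; ring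
      _ ≤ 529 * k * (M : ℝ) ^ 6 := by
          have : (0 : ℝ) ≤ k * (M : ℝ) ^ 6 := by positivity
          linarith
      _ = (23 * Real.sqrt k * (M : ℝ) ^ 3) ^ 2 := by
          rw [mul_pow, mul_pow, hsq]; ring
  have h2 : ∑ p ∈ box M, |∑ j ∈ range k, η (T^[j] p) * c j (z p)| ≤
      23 * Real.sqrt k * (M : ℝ) ^ 3 :=
    le_of_sq_le_sq h1 (by positivity)
  have h3 : ∀ p ∈ box M, |‖z (T^[k] p)‖ ^ 2 - ‖z p‖ ^ 2| ≤
      1 / 2 * |∑ j ∈ range k, η (T^[j] p) * c j (z p)| + (k : ℝ) ^ 2 / 8 := by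
    intro p _
    rw [drift]
    refine (abs_add_le _ _).trans ?_
    rw [abs_mul, abs_of_nonneg (by norm_num : (0 : ℝ) ≤ 1 / 2),
      abs_of_nonneg (sq_nonneg ‖kick k p‖)]
    have h4 := norm_kick k p
    have h5 : ‖kick k p‖ ^ 2 ≤ (‖τ‖ / 4 * k) ^ 2 := pow_le_pow_left₀ (norm_nonneg _) h4 2
    have h6 : (‖τ‖ / 4 * k) ^ 2 = (k : ℝ) ^ 2 / 8 := by
      rw [mul_pow, div_pow, norm_tau_sq]; ring
    linarith
  refine (Finset.sum_le_sum h3).trans ?_
  rw [Finset.sum_add_distrib, ← Finset.mul_sum, Finset.sum_const, card_box, nsmul_eq_mul]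
  push_cast
  have : (0 : ℝ) ≤ Real.sqrt k * (M : ℝ) ^ 3 := by positivity
  linarith

end Pool.Agent.Helper40.FR
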